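import Mathlib
import Pool.Agent.H14.Compactible

set_option autoImplicit false

namespace Pool.Agent.Results.MP_a8ef43_co.Disjoint

universe u

open Pool.Agent.H14.Compactible in
theorem result (E : Type u) (n : ℕ) (A : Set (Fin n → E)) (hA : IsCompactible A)
    (D : Set E) (hD : IsInterval A D) :
    ∃ T : Set (Set E), T.Finite ∧ (∀ I ∈ T, IsInterval A I) ∧ T.PairwiseDisjoint id ∧
      ⋃₀ T = Dᶜ := by
  obtain ⟨S, h1, h2, h3⟩ := hA D hD
  rw [← h3]
  exact main hA S h1 h2

end Pool.Agent.Results.MP_a8ef43_co.Disjoint
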